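import Pool.Agent.H500.ED.Stm
import Pool.Agent.H17.ZO.ARTa
import Pool.Graph.R_pool_sql_team_seeded_3997aac3.Q182.MZ.LFa
import Pool.Graph.R_pool_sql_team_seeded_3997aac3.Q14.SG.IJ
import Pool.Graph.R_pool_sql_team_seeded_3997aac3.Q111.EX.Fin
import Pool.Graph.R_pool_sql_team_seeded_3997aac3.Q38.EX.NrmB

set_option autoImplicit false
set_option linter.unusedSectionVars false
set_option linter.deprecated false

/-!
# Project ED (helper500), part A3 (by helper720): Galois characters of ray class characters, exact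
conductor
-/

namespace Pool.Agent.H720.ED.CND

open NumberField IsDedekindDomain Pool.Agent.Q92.AR
open Pool.Agent.W401.Cheb (GK IsFrob IsInert)
open Pool.Agent.H500.R2 (UnrOut)
open Pool.Agent.H500.ED
open Pool.Agent.Q20.EX (CongAt)

section
variable {K : Type} [Field K] [NumberField K] {M : Type} [Field M] [NumberField M] [Algebra K M]

/-- powers of Artin characters -/
theorem art_pow (ψ : (M ≃ₐ[K] M) →* ℂˣ) (k : ℕ) : art (ψ ^ k) = k • art ψ := by
  refine Finsupp.addHom_ext fun v j => ?_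
  have h1 : (k • art ψ) (Finsupp.single v j) = k • art ψ (Finsupp.single v j) := rfl
  rw [h1, art_single, art_single, MonoidHom.pow_apply, ofMul_pow]
  exact map_nsmul (zsmulAddGroupHom (α := Additive ℂˣ) j) k _

/-- the residue characteristic -/
theorem exists_prime (v : HeightOneSpectrum (𝓞 K)) : ∃ p : ℕ, p.Prime ∧ (p : 𝓞 K) ∈ v.asIdeal := by
  classical
  have h0 : ∃ n : ℕ, 0 < n ∧ (n : 𝓞 K) ∈ v.asIdeal :=
    ⟨Ideal.absNorm v.asIdeal, Nat.pos_of_ne_zero fun h => v.ne_bot (Ideal.absNorm_eq_zero_iff.1 h),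
      Ideal.absNorm_mem v.asIdeal⟩
  obtain ⟨hn, hmem⟩ := Nat.find_spec h0
  have hmin : ∀ m : ℕ, m < Nat.find h0 → 0 < m → (m : 𝓞 K) ∉ v.asIdeal :=
    fun m hm h1 h2 => Nat.find_min h0 hm ⟨h1, h2⟩
  generalize Nat.find h0 = p at hn hmem hmin
  refine ⟨p, ?_, hmem⟩
  have hp1 : p ≠ 1 := by
    rintro rfl
    rw [Nat.cast_one] at hmem
    exact v.isPrime.ne_top ((Ideal.eq_top_iff_one _).2 hmem)
  refine Nat.prime_def.2 ⟨by omega, fun m hm => ?_⟩
  obtain ⟨c, hc⟩ := hm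
  by_contra hcon
  push Not at hcon
  have hm0 : 0 < m := Nat.pos_of_ne_zero fun h => by
    rw [h, zero_mul] at hc
    omega
  have hc0 : 0 < c := Nat.pos_of_ne_zero fun h => by
    rw [h, mul_zero] at hc
    omega
  have hc1 : c ≠ 1 := by
    rintro rfl
    rw [mul_one] at hc
    exact hcon.2 hc.symm
  have hmp : m < p := by
    rw [hc]
    exact lt_mul_of_one_lt_right hm0 (by omega)
  have hcp : c < p := by
    rw [hc]
    exact lt_mul_of_one_lt_left hc0 (by omega)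
  rw [hc, Nat.cast_mul] at hmem
  rcases v.isPrime.mem_or_mem hmem with h | h
  · exact hmin m hmp hm0 h
  · exact hmin c hcp hc0 h

variable [IsGalois K M]

/-- the Artin character is unramified outside `A` -/
theorem psi_inert (hA1 : S_CNDA) (hA2 : S_CNDB) (ψ : (M ≃ₐ[K] M) →* ℂˣ) {N' A : ℕ}
    (χ : Dv K →+ Additive ℂˣ) (hN : N' ≠ 0) (hA : A ≠ 0) (hR : Ram K M N')
    (hart : ∀ D ∈ Pr K N', art ψ D = χ D) (hχ : ∀ x ∈ Ray K A, χ (prin x) = 0)
    (v : HeightOneSpectrum (𝓞 K)) (hv : (A : 𝓞 K) ∉ v.asIdeal) (w : HeightOneSpectrum (𝓞 M))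
    (g : M ≃ₐ[K] M) (hw : w.under (𝓞 K) = v)
    (hg : ∀ x : 𝓞 M, w.valuation M (g (x : M) - (x : M)) < 1) : ψ g = 1 := by
  obtain ⟨p, hp, hpv⟩ := exists_prime v
  obtain ⟨a, m, hm, hn⟩ := Nat.exists_eq_pow_mul_and_not_dvd
    (n := Nat.card (M ≃ₐ[K] M)) Nat.card_pos.ne' p hp.ne_one
  have hψ : ∀ g, ψ g ^ (p ^ a * m) = 1 := fun g => by
    rw [← hn, ← map_pow, pow_card_eq_one', map_one]
  have hm0 : 0 < m := Nat.pos_of_ne_zero fun h => hm (by rw [h]; exact dvd_zero p)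
  have hcop : Nat.Coprime (p ^ a) m := Nat.Coprime.pow_left a ((hp.coprime_iff_not_dvd).2 hm)
  have hmv : (m : 𝓞 K) ∉ v.asIdeal := by
    intro h
    have h1 : Nat.Coprime p m := (hp.coprime_iff_not_dvd).2 hm
    apply v.isPrime.ne_top
    rw [Ideal.eq_top_iff_one]
    have h2 := Nat.isCoprime_iff_coprime.2 h1
    obtain ⟨s, t, hst⟩ := h2
    have h3 : (s : 𝓞 K) * (p : 𝓞 K) + (t : 𝓞 K) * (m : 𝓞 K) = 1 := by exact_mod_cast congrArg (Int.cast : ℤ → 𝓞 K) hst
    rw [← h3]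
    exact v.asIdeal.add_mem (v.asIdeal.mul_mem_left _ hpv) (v.asIdeal.mul_mem_left _ h)
  have e1 : (ψ ^ (p ^ a)) g = 1 := by
    refine hA1 K M (ψ ^ (p ^ a)) N' A m ((p ^ a) • χ) hN hA hm0 hR (fun D hD => ?_)
      (fun x hx => ?_) (fun g => ?_) v hv hmv w g hw hg
    · have h1 : ((p ^ a) • art ψ) D = (p ^ a) • art ψ D := rfl
      have h2 : ((p ^ a) • χ) D = (p ^ a) • χ D := rfl
      rw [art_pow, h1, h2, hart D hD]
    · have h2 : ((p ^ a) • χ) (prin x) = (p ^ a) • χ (prin x) := rfl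
      rw [h2, hχ x hx, smul_zero]
    · rw [MonoidHom.pow_apply, ← pow_mul]
      exact hψ g
  have e2 : (ψ ^ m) g = 1 := by
    refine hA2 K M (ψ ^ m) N' A p a (m • χ) hN hA hp hR (fun D hD => ?_)
      (fun x hx => ?_) (fun g => ?_) v hv hpv w g hw hg
    · have h1 : (m • art ψ) D = m • art ψ D := rfl
      have h2 : (m • χ) D = m • χ D := rfl
      rw [art_pow, h1, h2, hart D hD]
    · have h2 : (m • χ) (prin x) = m • χ (prin x) := rfl
      rw [h2, hχ x hx, smul_zero]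
    · rw [MonoidHom.pow_apply, ← pow_mul, mul_comm]
      exact hψ g
  rw [MonoidHom.pow_apply] at e1 e2
  have h1 := orderOf_dvd_of_pow_eq_one e1
  have h2 := orderOf_dvd_of_pow_eq_one e2
  have h3 : orderOf (ψ g) = 1 := Nat.eq_one_of_dvd_coprimes hcop h1 h2
  exact orderOf_eq_one_iff.1 h3

/-- the Artin character at an unramified place -/
theorem art_at (ψ : (M ≃ₐ[K] M) →* ℂˣ) {N' A : ℕ}
    (χ : Dv K →+ Additive ℂˣ) (hN : N' ≠ 0) (hA : A ≠ 0)
    (hart : ∀ D ∈ Pr K N', art ψ D = χ D) (hχ : ∀ x ∈ Ray K A, χ (prin x) = 0)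
    (v : HeightOneSpectrum (𝓞 K)) (hv : (A : 𝓞 K) ∉ v.asIdeal) (hu : Unramified M v) :
    art ψ (Finsupp.single v 1) = χ (Finsupp.single v 1) := by
  classical
  obtain ⟨Ng, hNg, -, hgood⟩ := Pool.Agent.Q111.EX.good Pool.Agent.Q38.EX.nrm K M ψ v hu
  obtain ⟨p, hp, hpv⟩ := exists_prime v
  obtain ⟨N2, hN2⟩ : ∃ N2, N2 = A * N' * Ng * p := ⟨_, rfl⟩
  have hN20 : N2 ≠ 0 := by
    rw [hN2]
    exact mul_ne_zero (mul_ne_zero (mul_ne_zero hA hN) hNg) hp.ne_zero
  have d1 : A ∣ N2 := ⟨N' * Ng * p, by rw [hN2]; ring⟩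
  have d2 : N' ∣ N2 := ⟨A * Ng * p, by rw [hN2]; ring⟩
  have d3 : Ng ∣ N2 := ⟨A * N' * p, by rw [hN2]; ring⟩
  have d4 : p ∣ N2 := ⟨A * N' * Ng, by rw [hN2]; ring⟩
  obtain ⟨y, -, hy⟩ := Pool.Agent.Q285.EX.exists_val {v} (Finsupp.single v 1)
  have hyv : prin y v = 1 := by
    rw [hy v (Finset.mem_singleton_self v), Finsupp.single_eq_same]
  obtain ⟨z, hz1, hz2, hz3⟩ := Pool.Agent.Q182.MZ.apxAt hN20 v y
  have hN2v : (N2 : 𝓞 K) ∈ v.asIdeal := Pool.Agent.Q20.EX.nat_mem d4 hpv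
  have hzv : prin z v = 1 := by
    rw [← Pool.Agent.Q182.MZ.prin_eq_of_near hN2v (hz3 hN2v), hyv]
  have hzu : ∀ u : HeightOneSpectrum (𝓞 K), u ≠ v → (N2 : 𝓞 K) ∈ u.asIdeal → prin z u = 0 := by
    intro u huv hu2
    exact Pool.Agent.Q125.AR.prin_eq_zero_of_valuation
      (val_eq_one hu2 (hz2 u (fun h => huv h) hu2))
  have hzA : z ∈ Ray K A := by
    refine ⟨fun u hu2 => ?_, hz1⟩
    have huv : u ≠ v := by
      rintro rfl
      exact hv hu2
    exact (hz2 u (fun h => huv h) (Pool.Agent.Q20.EX.nat_mem d1 hu2)).trans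
      (Pool.Agent.Q20.EX.nat_val_le d1 u)
  have hD : Finsupp.single v 1 - prin z ∈ Pr K N' := by
    rw [mem_Pr]
    intro u hu2
    rw [Finsupp.sub_apply]
    by_cases huv : u = v
    · rw [huv, Finsupp.single_eq_same, hzv, sub_self]
    · rw [Finsupp.single_eq_of_ne huv, hzu u huv (Pool.Agent.Q20.EX.nat_mem d2 hu2), sub_self]
  have h1 := hart _ hD
  rw [map_sub, map_sub, hχ z hzA, sub_zero,
    hgood z hz1 (hz2.mono d3), sub_zero] at h1
  exact h1

variable [Algebra M (AlgebraicClosure K)] [IsScalarTower K M (AlgebraicClosure K)]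

/-- the restriction of an inertia element -/
theorem isInert_restrict {v : HeightOneSpectrum (𝓞 K)} {σ : GK K} (h : IsInert v σ) :
    ∃ w : HeightOneSpectrum (𝓞 M), w.under (𝓞 K) = v ∧
      ∀ x : 𝓞 M, w.valuation M (AlgEquiv.restrictNormalHom M σ (x : M) - (x : M)) < 1 := by
  obtain ⟨P, hP, hPv, hσ⟩ := h
  have hPp : P.IsPrime := hP.isPrime
  set w : Ideal (𝓞 M) := P.comap (algebraMap (𝓞 M) (𝓞 (AlgebraicClosure K))) with hw
  have hwp : w.IsPrime := Ideal.comap_isPrime _ _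
  have hwv : w.comap (algebraMap (𝓞 K) (𝓞 M)) = v.asIdeal := by
    rw [← hPv, hw, Ideal.comap_comap, ← IsScalarTower.algebraMap_eq]
  have hw0 : w ≠ ⊥ := by
    intro h
    apply v.ne_bot
    rw [← hwv, h, ← RingHom.ker_eq_comap_bot]
    exact (RingHom.injective_iff_ker_eq_bot _).1 (FaithfulSMul.algebraMap_injective (𝓞 K) (𝓞 M))
  refine ⟨⟨w, hwp, hw0⟩, ?_, fun x => ?_⟩
  · apply HeightOneSpectrum.ext
    exact hwv
  have hgx : IsIntegral ℤ (AlgEquiv.restrictNormalHom M σ (x : M)) := x.2.map _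
  obtain ⟨y, hy⟩ : ∃ y : 𝓞 M, (y : M) = AlgEquiv.restrictNormalHom M σ (x : M) :=
    ⟨⟨_, hgx⟩, rfl⟩
  have hmem : y - x ∈ w := by
    rw [hw, Ideal.mem_comap, map_sub]
    have h1 : algebraMap (𝓞 M) (𝓞 (AlgebraicClosure K)) y =
        σ • algebraMap (𝓞 M) (𝓞 (AlgebraicClosure K)) x := by
      apply RingOfIntegers.ext
      have h2 : algebraMap M (AlgebraicClosure K) (AlgEquiv.restrictNormalHom M σ (x : M)) =
          σ (algebraMap M (AlgebraicClosure K) (x : M)) :=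
        AlgEquiv.restrictNormal_commutes σ M x
      have h3 : ((algebraMap (𝓞 M) (𝓞 (AlgebraicClosure K)) y : 𝓞 (AlgebraicClosure K)) :
          AlgebraicClosure K) = algebraMap M (AlgebraicClosure K) (y : M) := rfl
      rw [h3, hy, h2]
      rfl
    rw [h1]
    exact hσ _
  have h4 : AlgEquiv.restrictNormalHom M σ (x : M) - (x : M) =
      algebraMap (𝓞 M) M (y - x) := by
    rw [← hy, map_sub]
  rw [h4]
  exact (HeightOneSpectrum.valuation_lt_one_iff_mem _ _).2 hmem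

end

theorem main : S_CNDA → S_CNDB → S_CND := by
  classical
  intro hA1 hA2 K _ _ A hA χ hχ
  obtain ⟨F0, _, _, _, _, ψ0, N', hN0, -, hram0, hart0⟩ :=
    Pool.Agent.Q20.EX.all_EXI K A χ hA.ne' hχ
  obtain ⟨M, _, _, _, _, ψ, hinj, hram, hart1⟩ := Pool.Agent.Q14.SG.ij K F0 ψ0 N' hN0 hram0
  have hart : ∀ D ∈ Pr K N', art ψ D = χ D := fun D hD => (hart1 D hD).trans (hart0 D hD)
  let ι : M →ₐ[K] AlgebraicClosure K := IsAlgClosed.lift
  let _ : Algebra M (AlgebraicClosure K) := ι.toRingHom.toAlgebra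
  have hst : IsScalarTower K M (AlgebraicClosure K) :=
    IsScalarTower.of_algebraMap_eq fun x => (ι.commutes x).symm
  let r : GK K →* (M ≃ₐ[K] M) := AlgEquiv.restrictNormalHom M
  have hin : ∀ v : HeightOneSpectrum (𝓞 K), (A : 𝓞 K) ∉ v.asIdeal →
      ∀ (w : HeightOneSpectrum (𝓞 M)) (g : M ≃ₐ[K] M), w.under (𝓞 K) = v →
      (∀ x : 𝓞 M, w.valuation M (g (x : M) - (x : M)) < 1) → ψ g = 1 :=
    fun v hv w g hw hg => psi_inert hA1 hA2 ψ χ hN0 hA.ne' hram hart hχ v hv w g hw hg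
  refine ⟨ψ.comp r, ?_, ?_, ?_⟩
  · refine Subgroup.isOpen_mono ?_ (Pool.Agent.H17.ZO.ARTa.isOpen_ker (K := K) (M := M))
    intro σ hσ
    rw [MonoidHom.mem_ker] at hσ ⊢
    change ψ (r σ) = 1
    have h1 : r σ = 1 := hσ
    rw [h1, map_one]
  · intro v hv σ hσ
    rw [MonoidHom.mem_ker]
    obtain ⟨w, hw, hg⟩ := isInert_restrict (M := M) hσ
    exact hin v hv w (r σ) hw hg
  · intro v hv s hs
    have hun : Unramified M v := by
      refine Pool.Agent.Q111.EX.unram_of_inert (F := K) (E := M) (M := M) v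
        fun w hw g hg x => ?_
      have h1 : ψ g = 1 := hin v hv w g hw hg
      have h2 : g = 1 := hinj (by rw [h1, map_one])
      rw [h2]
      rfl
    obtain ⟨h, hh⟩ := isFrobenius_conj hun (Pool.Agent.H17.ZO.ARTa.isFrob_restrict (M := M) hs)
      (frob_spec (M := M) v)
    have h1 := art_at ψ χ hN0 hA.ne' hart hχ v hv hun
    rw [art_single, one_smul] at h1
    rw [← h1]
    congr 1
    have h2 : ψ (frob M v) = ψ (r s) := by
      rw [hh, map_mul, map_mul, map_inv, mul_comm (ψ h)⁻¹, mul_assoc, inv_mul_cancel, mul_one]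
    exact h2.symm

end Pool.Agent.H720.ED.CND
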